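import Mathlib

/-!
Matchings and covers of finite families of finite sets: basic facts, the swap lemma and the
matching lemma for nearly complete uniform families.
-/

namespace Pool.Agent.R407.Cov

open Finset

variable {V : Type*} [DecidableEq V]

/-- The union of the members of a family. -/
def un (M : Finset (Finset V)) : Finset V := M.biUnion id

/-- The members of the family are pairwise disjoint. -/
def Match (M : Finset (Finset V)) : Prop := ∀ a ∈ M, ∀ b ∈ M, a ≠ b → Disjoint a b

theorem mem_un {M : Finset (Finset V)} {x : V} : x ∈ un M ↔ ∃ a ∈ M, x ∈ a := by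
  simp [un]

theorem subset_un {M : Finset (Finset V)} {a : Finset V} (h : a ∈ M) : a ⊆ un M :=
  fun _ hx => mem_un.2 ⟨a, h, hx⟩

theorem un_mono {M N : Finset (Finset V)} (h : M ⊆ N) : un M ⊆ un N := by
  intro x hx
  obtain ⟨a, ha, hxa⟩ := mem_un.1 hx
  exact mem_un.2 ⟨a, h ha, hxa⟩

theorem un_union {M N : Finset (Finset V)} : un (M ∪ N) = un M ∪ un N := by
  ext x
  simp only [mem_un, mem_union]
  constructor
  · rintro ⟨a, ha | ha, hx⟩
    · exact Or.inl ⟨a, ha, hx⟩
    · exact Or.inr ⟨a, ha, hx⟩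
  · rintro (⟨a, ha, hx⟩ | ⟨a, ha, hx⟩)
    · exact ⟨a, Or.inl ha, hx⟩
    · exact ⟨a, Or.inr ha, hx⟩

omit [DecidableEq V] in
theorem Match.mono {M N : Finset (Finset V)} (hM : Match M) (h : N ⊆ M) : Match N :=
  fun a ha b hb hab => hM a (h ha) b (h hb) hab

theorem un_card {M : Finset (Finset V)} {k : ℕ} (hM : Match M) (hk : ∀ a ∈ M, a.card = k) :
    (un M).card = M.card * k := by
  unfold un
  rw [Finset.card_biUnion]
  · simp only [id]
    rw [Finset.sum_congr rfl hk, Finset.sum_const, smul_eq_mul]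
  · intro a ha b hb hab
    exact hM a ha b hb hab

theorem un_card_le {M : Finset (Finset V)} {k : ℕ} (hk : ∀ a ∈ M, a.card ≤ k) :
    (un M).card ≤ M.card * k := by
  unfold un
  exact Finset.card_biUnion_le_card_mul M id k hk

/-- Unions of disjoint subfamilies of a matching are disjoint. -/
theorem Match.disjoint_un {M A B : Finset (Finset V)} (hM : Match M) (hA : A ⊆ M) (hB : B ⊆ M)
    (h : Disjoint A B) : Disjoint (un A) (un B) := by
  rw [Finset.disjoint_left]
  intro x hx hx'
  obtain ⟨a, ha, hxa⟩ := mem_un.1 hx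
  obtain ⟨b, hb, hxb⟩ := mem_un.1 hx'
  have hab : a ≠ b := by
    rintro rfl
    exact Finset.disjoint_left.1 h ha hb
  exact Finset.disjoint_left.1 (hM a (hA ha) b (hB hb) hab) hxa hxb

omit [DecidableEq V] in
/-- A family has a maximum matching inside any finite family. -/
theorem exists_max (H : Finset (Finset V)) :
    ∃ P ⊆ H, Match P ∧ ∀ N ⊆ H, Match N → N.card ≤ P.card := by
  classical
  obtain ⟨P, hP, hmax⟩ := Finset.exists_max_image (H.powerset.filter (fun M => Match M)) card
    ⟨∅, by
      rw [Finset.mem_filter, Finset.mem_powerset]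
      refine ⟨Finset.empty_subset _, ?_⟩
      intro a ha
      simp at ha⟩
  rw [Finset.mem_filter, Finset.mem_powerset] at hP
  refine ⟨P, hP.1, hP.2, fun N hN hm => hmax N ?_⟩
  rw [Finset.mem_filter, Finset.mem_powerset]
  exact ⟨hN, hm⟩

/-- Two matchings with disjoint supports join to a matching. -/
theorem Match.union {M N : Finset (Finset V)} (hM : Match M) (hN : Match N)
    (h : Disjoint (un M) (un N)) : Match (M ∪ N) := by
  intro a ha b hb hab
  rw [mem_union] at ha hb
  rcases ha with ha | ha <;> rcases hb with hb | hb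
  · exact hM a ha b hb hab
  · exact h.mono (subset_un ha) (subset_un hb)
  · exact (h.mono (subset_un hb) (subset_un ha)).symm
  · exact hN a ha b hb hab

/-- Families of nonempty sets with disjoint supports are disjoint. -/
theorem disjoint_of_un {M N : Finset (Finset V)} (hM : ∀ a ∈ M, a.Nonempty)
    (h : Disjoint (un M) (un N)) : Disjoint M N := by
  rw [Finset.disjoint_left]
  intro a ha ha'
  obtain ⟨x, hx⟩ := hM a ha
  exact Finset.disjoint_left.1 h (subset_un ha hx) (subset_un ha' hx)

/-- In a maximum matching every nonempty edge meets the support. -/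
theorem max_meets {H P : Finset (Finset V)} (hP : P ⊆ H) (hm : Match P)
    (hmax : ∀ N ⊆ H, Match N → N.card ≤ P.card) {e : Finset V} (he : e ∈ H)
    (hne : e.Nonempty) : ¬ Disjoint e (un P) := by
  intro hd
  have hnot : e ∉ P := by
    intro h
    obtain ⟨x, hx⟩ := hne
    exact Finset.disjoint_left.1 hd hx (subset_un h hx)
  have h1 := hmax (insert e P) (by
    intro a ha
    rcases mem_insert.1 ha with rfl | ha
    · exact he
    · exact hP ha) (by
    intro a ha b hb hab
    rcases mem_insert.1 ha with h1 | h1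
    · rcases mem_insert.1 hb with h2 | h2
      · exact absurd (h1.trans h2.symm) hab
      · rw [h1]
        exact hd.mono_right (subset_un h2)
    · rcases mem_insert.1 hb with h2 | h2
      · rw [h2]
        exact (hd.mono_right (subset_un h1)).symm
      · exact hm a h1 b h2 hab)
  rw [Finset.card_insert_of_notMem hnot] at h1
  omega

/-- The swap lemma: if all transversals of `X₀` and the members of `Q` are edges, the matching
can be enlarged. -/
theorem swap {k : ℕ} (hk : 1 ≤ k) {F : Finset (Finset V)} {X X₀ : Finset V}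
    {P Q : Finset (Finset V)} (hPF : ∀ a ∈ P, a ∈ F ∧ a ⊆ X) (hPk : ∀ a ∈ P, a.card = k)
    (hm : Match P) (hX₀ : X₀.card = k) (hX₀X : X₀ ⊆ X) (hd : Disjoint X₀ (un P))
    (hQ : Q ⊆ P) (hQc : Q.card = k - 1)
    (hall : ∀ B ∈ X.powersetCard k, ¬ Disjoint B X₀ → P.filter (fun a => ¬ Disjoint a B) = Q →
      B ∈ F) :
    ∃ N : Finset (Finset V), (∀ a ∈ N, a ∈ F ∧ a ⊆ X) ∧ Match N ∧ N.card = P.card + 1 := by
  classical
  have hX0ne : X₀.Nonempty := by
    rw [← Finset.card_pos]; omega
  obtain ⟨x0, hx0⟩ := hX0ne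
  have : Nonempty V := ⟨x0⟩
  have hex : ∀ e : Finset V, e.card = k → ∃ f : Fin k → V, (∀ j, f j ∈ e) ∧
      Function.Injective f := by
    intro e he
    refine ⟨fun j => ((e.equivFinOfCardEq he).symm j : V), fun j => ?_, ?_⟩
    · exact ((e.equivFinOfCardEq he).symm j).2
    · intro i j hij
      exact (e.equivFinOfCardEq he).symm.injective (Subtype.ext hij)
  choose! φ hφ using hex
  have hX0P : X₀ ∉ P := by
    intro h
    exact Finset.disjoint_left.1 hd hx0 (subset_un h hx0)
  have hX0Q : X₀ ∉ Q := fun h => hX0P (hQ h)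
  have hm' : Match (insert X₀ P) := by
    intro a ha b hb hab
    rcases mem_insert.1 ha with h1 | h1
    · rcases mem_insert.1 hb with h2 | h2
      · exact absurd (h1.trans h2.symm) hab
      · rw [h1]
        exact hd.mono_right (subset_un h2)
    · rcases mem_insert.1 hb with h2 | h2
      · rw [h2]
        exact (hd.mono_right (subset_un h1)).symm
      · exact hm a h1 b h2 hab
  have hk' : ∀ a ∈ insert X₀ P, a.card = k := by
    intro a ha
    rcases mem_insert.1 ha with rfl | ha
    · exact hX₀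
    · exact hPk a ha
  have hsubX : ∀ a ∈ insert X₀ P, a ⊆ X := by
    intro a ha
    rcases mem_insert.1 ha with rfl | ha
    · exact hX₀X
    · exact (hPF a ha).2
  set Q' := insert X₀ Q with hQ'
  have hQ'P : Q' ⊆ insert X₀ P := Finset.insert_subset_insert _ hQ
  have hQ'c : Q'.card = k := by
    rw [hQ', Finset.card_insert_of_notMem hX0Q, hQc]; omega
  -- key: if two points coincide then the classes coincide
  have hkey : ∀ a ∈ insert X₀ P, ∀ e ∈ insert X₀ P, ∀ x, x ∈ a → x ∈ e → a = e := by
    intro a ha e he x hxa hxe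
    by_contra hne
    exact Finset.disjoint_left.1 (hm' a ha e he hne) hxa hxe
  let g : Fin k → Finset V := fun j => Q'.image (fun e => φ e j)
  have hgmem : ∀ j x, x ∈ g j ↔ ∃ e ∈ Q', φ e j = x := by
    intro j x
    simp [g]
  have hgcard : ∀ j, (g j).card = k := by
    intro j
    simp only [g]
    rw [Finset.card_image_of_injOn, hQ'c]
    intro a ha e he h
    simp only [Finset.mem_coe] at ha he h
    refine hkey a (hQ'P ha) e (hQ'P he) (φ a j) ((hφ a (hk' a (hQ'P ha))).1 j) ?_
    rw [h]
    exact (hφ e (hk' e (hQ'P he))).1 j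
  have hgX : ∀ j, g j ⊆ X := by
    intro j x hx
    obtain ⟨e, he, rfl⟩ := (hgmem j x).1 hx
    exact hsubX e (hQ'P he) ((hφ e (hk' e (hQ'P he))).1 j)
  have hgX0 : ∀ j, ¬ Disjoint (g j) X₀ := by
    intro j hdj
    have h1 : φ X₀ j ∈ g j := (hgmem j _).2 ⟨X₀, mem_insert_self _ _, rfl⟩
    exact Finset.disjoint_left.1 hdj h1 ((hφ X₀ hX₀).1 j)
  have hgfil : ∀ j, P.filter (fun a => ¬ Disjoint a (g j)) = Q := by
    intro j
    ext a
    rw [Finset.mem_filter]
    constructor
    · rintro ⟨haP, hnd⟩
      rw [Finset.not_disjoint_iff] at hnd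
      obtain ⟨x, hxa, hxg⟩ := hnd
      obtain ⟨e, he, rfl⟩ := (hgmem j x).1 hxg
      have h1 : a = e := hkey a (mem_insert_of_mem haP) e (hQ'P he) _ hxa
        ((hφ e (hk' e (hQ'P he))).1 j)
      rw [h1]
      rcases mem_insert.1 he with h2 | h2
      · exfalso
        apply hX0P
        rw [← h2, ← h1]
        exact haP
      · exact h2
    · intro haQ
      refine ⟨hQ haQ, ?_⟩
      rw [Finset.not_disjoint_iff]
      exact ⟨φ a j, (hφ a (hPk a (hQ haQ))).1 j, (hgmem j _).2 ⟨a, mem_insert_of_mem haQ, rfl⟩⟩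
  have hgF : ∀ j, g j ∈ F := fun j =>
    hall (g j) (Finset.mem_powersetCard.2 ⟨hgX j, hgcard j⟩) (hgX0 j) (hgfil j)
  have hgdis : ∀ i j, i ≠ j → Disjoint (g i) (g j) := by
    intro i j hij
    rw [Finset.disjoint_left]
    intro x hx hx'
    obtain ⟨e, he, rfl⟩ := (hgmem i x).1 hx
    obtain ⟨e', he', h⟩ := (hgmem j _).1 hx'
    have h1 : e' = e := hkey e' (hQ'P he') e (hQ'P he) (φ e' j)
      ((hφ e' (hk' e' (hQ'P he'))).1 j) (by
        rw [h]; exact (hφ e (hk' e (hQ'P he))).1 i)
    rw [h1] at h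
    exact hij ((hφ e (hk' e (hQ'P he))).2 h).symm
  have hginj : Function.Injective g := by
    intro i j hij
    by_contra hne
    have h1 := hgdis i j hne
    rw [hij, disjoint_self] at h1
    have h2 := hgcard j
    rw [h1] at h2
    simp at h2
    omega
  have hdisj : ∀ a ∈ P \ Q, ∀ j, Disjoint a (g j) := by
    intro a ha j
    by_contra hnd
    have h1 : a ∈ P.filter (fun a => ¬ Disjoint a (g j)) :=
      Finset.mem_filter.2 ⟨(Finset.mem_sdiff.1 ha).1, hnd⟩
    rw [hgfil j] at h1
    exact (Finset.mem_sdiff.1 ha).2 h1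
  refine ⟨(P \ Q) ∪ Finset.univ.image g, ?_, ?_, ?_⟩
  · intro a ha
    rcases mem_union.1 ha with ha | ha
    · exact hPF a (Finset.mem_sdiff.1 ha).1
    · obtain ⟨j, -, rfl⟩ := Finset.mem_image.1 ha
      exact ⟨hgF j, hgX j⟩
  · intro a ha b hb hab
    rcases mem_union.1 ha with ha | ha
    · rcases mem_union.1 hb with hb | hb
      · exact hm a (Finset.mem_sdiff.1 ha).1 b (Finset.mem_sdiff.1 hb).1 hab
      · obtain ⟨j, -, rfl⟩ := Finset.mem_image.1 hb
        exact hdisj a ha j
    · obtain ⟨i, -, rfl⟩ := Finset.mem_image.1 ha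
      rcases mem_union.1 hb with hb | hb
      · exact (hdisj b hb i).symm
      · obtain ⟨j, -, rfl⟩ := Finset.mem_image.1 hb
        exact hgdis i j (fun h => hab (by rw [h]))
  · rw [Finset.card_union_of_disjoint, Finset.card_image_of_injective _ hginj,
      Finset.card_univ, Fintype.card_fin, Finset.card_sdiff_of_subset hQ, hQc]
    · have h1 := Finset.card_le_card hQ
      omega
    · rw [Finset.disjoint_left]
      intro a ha ha'
      obtain ⟨j, -, rfl⟩ := Finset.mem_image.1 ha'
      have h1 := hdisj _ ha j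
      rw [disjoint_self] at h1
      have h2 := hgcard j
      rw [h1] at h2
      simp at h2
      omega

/-- The number of missing sets through a point. -/
def md (F : Finset (Finset V)) (k : ℕ) (X : Finset V) (x : V) : ℕ :=
  ((X.powersetCard k).filter (fun B => B ∉ F ∧ x ∈ B)).card

theorem md_mono {F : Finset (Finset V)} {k : ℕ} {X Y : Finset V} (h : X ⊆ Y) (x : V) :
    md F k X x ≤ md F k Y x := by
  unfold md
  apply Finset.card_le_card
  apply Finset.filter_subset_filter
  exact Finset.powersetCard_mono h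

/-- The matching lemma, counting form. -/
theorem ml_aux {k : ℕ} (hk : 1 ≤ k) {F : Finset (Finset V)} (hF : ∀ e ∈ F, e.card = k)
    {X : Finset V} {D c : ℕ} (hd : ∀ x ∈ X, D * md F k X x ≤ c)
    {P : Finset (Finset V)} (hP : P ⊆ F.filter (fun e => e ⊆ X)) (hm : Match P)
    (hmax : ∀ N ⊆ F.filter (fun e => e ⊆ X), Match N → N.card ≤ P.card)
    (hX : k * (P.card + 1) ≤ X.card) :
    D * (P.card).choose (k - 1) ≤ k * c ∧ D * (X.card - k * P.card - 1).choose (k - 1) ≤ c := by
  have hPF : ∀ a ∈ P, a ∈ F ∧ a ⊆ X := fun a ha => Finset.mem_filter.1 (hP ha)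
  have hPk : ∀ a ∈ P, a.card = k := fun a ha => hF a (hPF a ha).1
  have hunX : un P ⊆ X := by
    intro x hx
    obtain ⟨a, ha, hxa⟩ := mem_un.1 hx
    exact (hPF a ha).2 hxa
  have hYc : (X \ un P).card = X.card - k * P.card := by
    rw [Finset.card_sdiff_of_subset hunX, un_card hm hPk, mul_comm]
  have hXk : k * P.card + k ≤ X.card := by
    have : k * (P.card + 1) = k * P.card + k := by ring
    omega
  constructor
  · obtain ⟨X₀, hX₀, hX₀c⟩ := Finset.exists_subset_card_eq (s := X \ un P) (n := k) (by omega)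
    have hX₀X : X₀ ⊆ X := hX₀.trans Finset.sdiff_subset
    have hX₀d : Disjoint X₀ (un P) := by
      rw [Finset.disjoint_left]
      intro x hx hx'
      exact (Finset.mem_sdiff.1 (hX₀ hx)).2 hx'
    set S := (X.powersetCard k).filter (fun B => B ∉ F ∧ ¬ Disjoint B X₀) with hS
    have h1 : (P.powersetCard (k - 1)).card ≤ S.card := by
      apply Finset.card_le_card_of_surjOn (fun B => P.filter (fun a => ¬ Disjoint a B))
      intro Q hQ
      have hQ' := Finset.mem_powersetCard.1 (Finset.mem_coe.1 hQ)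
      by_contra hcon
      obtain ⟨N, hN1, hN2, hN3⟩ := swap hk hPF hPk hm hX₀c hX₀X hX₀d hQ'.1 hQ'.2 (by
        intro B hB hBd hBf
        by_contra hBF
        apply hcon
        refine ⟨B, ?_, hBf⟩
        rw [Finset.mem_coe, hS, Finset.mem_filter]
        exact ⟨hB, hBF, hBd⟩)
      have h2 := hmax N (fun a ha => Finset.mem_filter.2 (hN1 a ha)) hN2
      omega
    rw [Finset.card_powersetCard] at h1
    have h2 : S.card ≤ ∑ x ∈ X₀, md F k X x := by
      have h3 : S ⊆ X₀.biUnion (fun x => (X.powersetCard k).filter (fun B => B ∉ F ∧ x ∈ B)) := by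
        intro B hB
        rw [hS, Finset.mem_filter, Finset.not_disjoint_iff] at hB
        obtain ⟨hB1, hB2, x, hxB, hxX⟩ := hB
        rw [Finset.mem_biUnion]
        exact ⟨x, hxX, Finset.mem_filter.2 ⟨hB1, hB2, hxB⟩⟩
      exact (Finset.card_le_card h3).trans Finset.card_biUnion_le
    calc D * (P.card).choose (k - 1) ≤ D * ∑ x ∈ X₀, md F k X x :=
          Nat.mul_le_mul_left _ (h1.trans h2)
      _ = ∑ x ∈ X₀, D * md F k X x := by rw [Finset.mul_sum]
      _ ≤ ∑ x ∈ X₀, c := Finset.sum_le_sum (fun x hx => hd x (hX₀X hx))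
      _ = k * c := by rw [Finset.sum_const, hX₀c, smul_eq_mul]
  · have hYpos : 0 < (X \ un P).card := by omega
    obtain ⟨y, hy⟩ := Finset.card_pos.1 hYpos
    have hyX : y ∈ X := (Finset.mem_sdiff.1 hy).1
    have h1 : (((X \ un P).erase y).powersetCard (k - 1)).card ≤ md F k X y := by
      unfold md
      apply Finset.card_le_card_of_injOn (fun R => insert y R)
      · intro R hR
        have hR' := Finset.mem_powersetCard.1 (Finset.mem_coe.1 hR)
        have hyR : y ∉ R := fun h => (Finset.mem_erase.1 (hR'.1 h)).1 rfl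
        have hsub : insert y R ⊆ X \ un P := by
          intro z hz
          rcases mem_insert.1 hz with rfl | hz
          · exact hy
          · exact (Finset.mem_erase.1 (hR'.1 hz)).2
        rw [Finset.mem_coe, Finset.mem_filter, Finset.mem_powersetCard]
        refine ⟨⟨hsub.trans Finset.sdiff_subset, ?_⟩, ?_, mem_insert_self _ _⟩
        · rw [Finset.card_insert_of_notMem hyR, hR'.2]; omega
        · intro hF'
          have h2 := max_meets hP hm hmax
            (Finset.mem_filter.2 ⟨hF', hsub.trans Finset.sdiff_subset⟩) ⟨y, mem_insert_self _ _⟩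
          apply h2
          rw [Finset.disjoint_left]
          intro x hx hx'
          exact (Finset.mem_sdiff.1 (hsub hx)).2 hx'
      · intro R hR R' hR' h
        have h1 := Finset.mem_powersetCard.1 (Finset.mem_coe.1 hR)
        have h2 := Finset.mem_powersetCard.1 (Finset.mem_coe.1 hR')
        have hyR : y ∉ R := fun h => (Finset.mem_erase.1 (h1.1 h)).1 rfl
        have hyR' : y ∉ R' := fun h => (Finset.mem_erase.1 (h2.1 h)).1 rfl
        simp only at h
        rw [← Finset.erase_insert hyR, ← Finset.erase_insert hyR', h]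
    rw [Finset.card_powersetCard, Finset.card_erase_of_mem hy, hYc] at h1
    exact (Nat.mul_le_mul_left _ h1).trans (hd y hyX)

/-- The constant of the matching lemma. -/
def DD (k : ℕ) : ℕ := (4 * k) ^ k * k.factorial + 1

/-- The matching lemma: a nearly complete uniform family has a matching of every admissible
size. -/
theorem ml {k : ℕ} (hk : 1 ≤ k) {F : Finset (Finset V)} (hF : ∀ e ∈ F, e.card = k)
    {X : Finset V} (hX : 4 * k * k ≤ X.card)
    (hd : ∀ x ∈ X, DD k * md F k X x ≤ X.card ^ (k - 1)) {m : ℕ} (hm : k * m ≤ X.card) :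
    ∃ N ⊆ F, Match N ∧ m ≤ N.card ∧ ∀ e ∈ N, e ⊆ X := by
  obtain ⟨P, hP, hPm, hmax⟩ := exists_max (F.filter (fun e => e ⊆ X))
  by_cases hPc : m ≤ P.card
  · exact ⟨P, fun a ha => (Finset.mem_filter.1 (hP ha)).1, hPm, hPc,
      fun a ha => (Finset.mem_filter.1 (hP ha)).2⟩
  exfalso
  have hX' : k * (P.card + 1) ≤ X.card := le_trans (Nat.mul_le_mul_left _ (by omega)) hm
  obtain ⟨h1, h2⟩ := ml_aux hk hF hd hP hPm hmax hX'
  set N := X.card with hN
  set t := P.card with ht
  obtain ⟨p, rfl⟩ : ∃ p, k = p + 1 := ⟨k - 1, by omega⟩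
  simp only [Nat.add_sub_cancel] at h1 h2
  have hNpos : 0 < N := by
    have : 0 < 4 * (p + 1) * (p + 1) := by positivity
    omega
  have hfac : p.factorial ≤ (p + 1).factorial := Nat.factorial_le (by omega)
  -- lower bound for binomials
  have hch : ∀ a : ℕ, (a + 1 - p) ^ p ≤ p.factorial * a.choose p := by
    intro a
    rw [← Nat.descFactorial_eq_factorial_mul_choose]
    exact Nat.pow_sub_le_descFactorial a p
  have key : ∀ a : ℕ, N ≤ (4 * (p + 1)) * (a + 1 - p) →
      DD (p + 1) * a.choose p ≤ (p + 1) * N ^ p → False := by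
    intro a ha hb
    have h3 : N ^ p ≤ (4 * (p + 1)) ^ p * (a + 1 - p) ^ p := by
      rw [← mul_pow]
      exact Nat.pow_le_pow_left ha p
    have h4 : DD (p + 1) * N ^ p ≤ (4 * (p + 1)) ^ p * p.factorial * ((p + 1) * N ^ p) := by
      calc DD (p + 1) * N ^ p ≤ DD (p + 1) * ((4 * (p + 1)) ^ p * (a + 1 - p) ^ p) :=
            Nat.mul_le_mul_left _ h3
        _ ≤ DD (p + 1) * ((4 * (p + 1)) ^ p * (p.factorial * a.choose p)) :=
            Nat.mul_le_mul_left _ (Nat.mul_le_mul_left _ (hch a))
        _ = (4 * (p + 1)) ^ p * p.factorial * (DD (p + 1) * a.choose p) := by ring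
        _ ≤ (4 * (p + 1)) ^ p * p.factorial * ((p + 1) * N ^ p) := Nat.mul_le_mul_left _ hb
    have h5 : DD (p + 1) ≤ (4 * (p + 1)) ^ p * p.factorial * (p + 1) := by
      have h6 : 0 < N ^ p := by positivity
      refine Nat.le_of_mul_le_mul_right ?_ h6
      calc DD (p + 1) * N ^ p ≤ (4 * (p + 1)) ^ p * p.factorial * ((p + 1) * N ^ p) := h4
        _ = (4 * (p + 1)) ^ p * p.factorial * (p + 1) * N ^ p := by ring
    have h7 : (4 * (p + 1)) ^ p * p.factorial * (p + 1) ≤
        (4 * (p + 1)) ^ (p + 1) * (p + 1).factorial := by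
      calc (4 * (p + 1)) ^ p * p.factorial * (p + 1)
          ≤ (4 * (p + 1)) ^ p * (p + 1).factorial * (4 * (p + 1)) :=
            Nat.mul_le_mul (Nat.mul_le_mul_left _ hfac) (by omega)
        _ = (4 * (p + 1)) ^ (p + 1) * (p + 1).factorial := by ring
    unfold DD at h5
    omega
  by_cases hcase : N ≤ 2 * (p + 1) * t
  · -- many matching edges
    apply key t _ h1
    have h8 : 2 * p ≤ t + 1 := by
      have h9 : 4 * (p + 1) * (p + 1) ≤ 2 * (p + 1) * t := hX.trans hcase
      have h10 : (2 * (p + 1)) * (2 * (p + 1)) ≤ (2 * (p + 1)) * t := by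
        calc (2 * (p + 1)) * (2 * (p + 1)) = 4 * (p + 1) * (p + 1) := by ring
          _ ≤ _ := h9
      have h11 := Nat.le_of_mul_le_mul_left h10 (by omega)
      omega
    have h12 : t ≤ 2 * (t + 1 - p) := by omega
    calc N ≤ 2 * (p + 1) * t := hcase
      _ ≤ 2 * (p + 1) * (2 * (t + 1 - p)) := Nat.mul_le_mul_left _ h12
      _ = (4 * (p + 1)) * (t + 1 - p) := by ring
  · push Not at hcase
    apply key (N - (p + 1) * t - 1) _ _
    · set u := (p + 1) * t with hu
      have h13 : 2 * u < N := by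
        rw [hu]
        calc 2 * ((p + 1) * t) = 2 * (p + 1) * t := by ring
          _ < N := hcase
      have h14 : 4 * (p + 1) ≤ N := by
        calc 4 * (p + 1) ≤ 4 * (p + 1) * (p + 1) := Nat.le_mul_of_pos_right _ (by omega)
          _ ≤ N := hX
      have h15 : N ≤ 4 * (N - u - 1 + 1 - p) := by omega
      calc N ≤ 4 * (N - u - 1 + 1 - p) := h15
        _ ≤ (4 * (p + 1)) * (N - u - 1 + 1 - p) := Nat.mul_le_mul_right _ (by omega)
    · refine h2.trans ?_
      exact Nat.le_mul_of_pos_left _ (by omega)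

end Pool.Agent.R407.Cov
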