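import Pool.Agent.R407.Cov.Basic

/-!
The local structure of uniform families whose covering number is as large as possible.
-/

namespace Pool.Agent.R407.Cov

open Finset

variable {V : Type*} [DecidableEq V]

/-- The standing hypothesis: `M` is a maximum matching of size `s` of the `k`-uniform family `F`
and every cover of `F` has at least `s * k` points. -/
structure Hyp (k s : ℕ) (F M : Finset (Finset V)) : Prop where
  kpos : 1 ≤ k
  unif : ∀ e ∈ F, e.card = k
  sub : M ⊆ F
  mat : Match M
  card : M.card = s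
  max : ∀ N ⊆ F, Match N → N.card ≤ s
  cov : ∀ Y : Finset V, (∀ e ∈ F, ¬ Disjoint e Y) → s * k ≤ Y.card

/-- The local family of a set of classes. -/
def loc (F M I : Finset (Finset V)) : Finset (Finset V) :=
  F.filter (fun e => e ∩ un M ⊆ un I)

theorem mem_loc {F M I : Finset (Finset V)} {e : Finset V} :
    e ∈ loc F M I ↔ e ∈ F ∧ e ∩ un M ⊆ un I := Finset.mem_filter

theorem Hyp.nonempty {k s : ℕ} {F M : Finset (Finset V)} (h : Hyp k s F M) {e : Finset V}
    (he : e ∈ F) : e.Nonempty := by
  rw [← Finset.card_pos, h.unif e he]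
  exact h.kpos

theorem Hyp.un_card {k s : ℕ} {F M : Finset (Finset V)} (h : Hyp k s F M) :
    (un M).card = s * k := by
  rw [Cov.un_card h.mat (fun a ha => h.unif a (h.sub ha)), h.card]

theorem Hyp.loc_matching {k s : ℕ} {F M I : Finset (Finset V)} (h : Hyp k s F M) (hI : I ⊆ M)
    {N : Finset (Finset V)} (hN : N ⊆ loc F M I) (hm : Match N) : N.card ≤ I.card := by
  have hdisj : Disjoint (un N) (un (M \ I)) := by
    rw [Finset.disjoint_left]
    intro x hx hx'
    obtain ⟨a, ha, hxa⟩ := mem_un.1 hx
    have h1 := (mem_loc.1 (hN ha)).2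
    have h2 : x ∈ un I := h1 (Finset.mem_inter.2 ⟨hxa, un_mono Finset.sdiff_subset hx'⟩)
    exact Finset.disjoint_left.1 (h.mat.disjoint_un hI Finset.sdiff_subset
      Finset.disjoint_sdiff) h2 hx'
  have hne : ∀ a ∈ N, a.Nonempty := fun a ha => h.nonempty (mem_loc.1 (hN ha)).1
  have h1 := h.max (N ∪ (M \ I)) (by
    intro a ha
    rcases mem_union.1 ha with ha | ha
    · exact (mem_loc.1 (hN ha)).1
    · exact h.sub (Finset.mem_sdiff.1 ha).1)
    (Match.union hm (h.mat.mono Finset.sdiff_subset) hdisj)
  rw [Finset.card_union_of_disjoint (disjoint_of_un hne hdisj), Finset.card_sdiff_of_subset hI,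
    h.card] at h1
  have h2 := Finset.card_le_card hI
  rw [h.card] at h2
  omega

theorem Hyp.loc_cover {k s : ℕ} {F M I : Finset (Finset V)} (h : Hyp k s F M) (hI : I ⊆ M)
    {T : Finset V} (hT : ∀ e ∈ loc F M I, ¬ Disjoint e T) : I.card * k ≤ T.card := by
  have h1 := h.cov (T ∪ un (M \ I)) (by
    intro e he hd
    rw [Finset.disjoint_union_right] at hd
    apply hT e _ hd.1
    rw [mem_loc]
    refine ⟨he, ?_⟩
    intro x hx
    rw [Finset.mem_inter] at hx
    obtain ⟨a, ha, hxa⟩ := mem_un.1 hx.2
    by_cases haI : a ∈ I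
    · exact mem_un.2 ⟨a, haI, hxa⟩
    · exfalso
      exact Finset.disjoint_left.1 hd.2 hx.1 (mem_un.2 ⟨a, Finset.mem_sdiff.2 ⟨ha, haI⟩, hxa⟩))
  have h2 : (T ∪ un (M \ I)).card ≤ T.card + (M \ I).card * k :=
    (Finset.card_union_le _ _).trans (Nat.add_le_add_left
      (un_card_le (fun a ha => (h.unif a (h.sub (Finset.mem_sdiff.1 ha).1)).le)) _)
  rw [Finset.card_sdiff_of_subset hI, h.card] at h2
  have h3 := Finset.card_le_card hI
  rw [h.card] at h3
  have h4 : (s - I.card) * k + I.card * k = s * k := by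
    rw [← Nat.add_mul]
    congr 1
    omega
  omega

/-- Resilience of the local families. -/
theorem Hyp.resil {k s : ℕ} {F M I : Finset (Finset V)} (h : Hyp k s F M) (hI : I ⊆ M)
    {T : Finset V} (hT : T.card < k) :
    ∃ N ⊆ loc F M I, Match N ∧ (∀ a ∈ N, Disjoint a T) ∧ N.card = I.card ∧
      ∀ e ∈ loc F M I, ¬ Disjoint e (un N) := by
  obtain ⟨N, hN, hNm, hmax⟩ := exists_max ((loc F M I).filter (fun e => Disjoint e T))
  have hNl : N ⊆ loc F M I := fun a ha => (Finset.mem_filter.1 (hN ha)).1
  have hcov : I.card * k ≤ (T ∪ un N).card := by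
    apply h.loc_cover hI
    intro e he hd
    rw [Finset.disjoint_union_right] at hd
    exact max_meets hN hNm hmax (Finset.mem_filter.2 ⟨he, hd.1⟩)
      (h.nonempty (mem_loc.1 he).1) hd.2
  have h1 : (T ∪ un N).card ≤ T.card + N.card * k :=
    (Finset.card_union_le _ _).trans (Nat.add_le_add_left
      (un_card_le (fun a ha => (h.unif a (mem_loc.1 (hNl ha)).1).le)) _)
  have h2 : N.card ≤ I.card := h.loc_matching hI hNl hNm
  have h3 : N.card = I.card := by
    by_contra hne
    have h4 : N.card + 1 ≤ I.card := by omega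
    have h5 : (N.card + 1) * k ≤ I.card * k := Nat.mul_le_mul_right _ h4
    have h6 : (N.card + 1) * k = N.card * k + k := by ring
    omega
  refine ⟨N, hNl, hNm, fun a ha => (Finset.mem_filter.1 (hN ha)).2, h3, ?_⟩
  intro e he
  refine max_meets hNl hNm ?_ he (h.nonempty (mem_loc.1 he).1)
  intro N' hN' hm'
  rw [h3]
  exact h.loc_matching hI hN' hm'

/-- The number of edges of a local family through a given set. -/
theorem Hyp.link_count {k s : ℕ} {F M I : Finset (Finset V)} (h : Hyp k s F M) (hI : I ⊆ M) :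
    ∀ j : ℕ, j ≤ k → ∀ S : Finset V, S.card = k - j →
      ((loc F M I).filter (fun e => S ⊆ e)).card ≤ (I.card * k) ^ j := by
  intro j
  induction j with
  | zero =>
    intro _ S hS
    rw [pow_zero, Finset.card_le_one]
    intro a ha b hb
    rw [Finset.mem_filter, mem_loc] at ha hb
    have h1 : S = a := Finset.eq_of_subset_of_card_le ha.2 (by rw [h.unif a ha.1.1, hS]; omega)
    have h2 : S = b := Finset.eq_of_subset_of_card_le hb.2 (by rw [h.unif b hb.1.1, hS]; omega)
    rw [← h1, ← h2]
  | succ j ih =>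
    intro hj S hS
    have hk := h.kpos
    obtain ⟨N, hN, hNm, hNS, hNc, hmeet⟩ := h.resil hI (T := S) (by omega)
    have hsub : (loc F M I).filter (fun e => S ⊆ e) ⊆
        (un N).biUnion (fun u => (loc F M I).filter (fun e => insert u S ⊆ e)) := by
      intro e he
      rw [Finset.mem_filter] at he
      have h1 := hmeet e he.1
      rw [Finset.not_disjoint_iff] at h1
      obtain ⟨u, hue, huN⟩ := h1
      rw [Finset.mem_biUnion]
      refine ⟨u, huN, Finset.mem_filter.2 ⟨he.1, ?_⟩⟩
      exact Finset.insert_subset hue he.2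
    have hun : (un N).card = I.card * k := by
      rw [Cov.un_card hNm (fun a ha => h.unif a (mem_loc.1 (hN ha)).1), hNc]
    calc ((loc F M I).filter (fun e => S ⊆ e)).card
        ≤ ((un N).biUnion (fun u => (loc F M I).filter (fun e => insert u S ⊆ e))).card :=
          Finset.card_le_card hsub
      _ ≤ ∑ u ∈ un N, ((loc F M I).filter (fun e => insert u S ⊆ e)).card :=
          Finset.card_biUnion_le
      _ ≤ ∑ u ∈ un N, (I.card * k) ^ j := by
          apply Finset.sum_le_sum
          intro u hu
          apply ih (by omega)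
          have huS : u ∉ S := by
            intro huS
            obtain ⟨a, ha, hua⟩ := mem_un.1 hu
            exact Finset.disjoint_left.1 (hNS a ha) hua huS
          rw [Finset.card_insert_of_notMem huS]
          omega
      _ = (I.card * k) ^ (j + 1) := by
          rw [Finset.sum_const, hun, smul_eq_mul]
          ring

theorem Hyp.loc_count {k s : ℕ} {F M I : Finset (Finset V)} (h : Hyp k s F M) (hI : I ⊆ M) :
    (loc F M I).card ≤ (I.card * k) ^ k := by
  have h1 := h.link_count hI k le_rfl ∅ (by simp)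
  simpa using h1

/-- A set meets at most as many members of a matching as it has points in the support. -/
theorem touch_card {M : Finset (Finset V)} (hM : Match M) (e : Finset V) :
    (M.filter (fun a => ¬ Disjoint a e)).card ≤ (e ∩ un M).card := by
  have h1 : (M.filter (fun a => ¬ Disjoint a e)).card ≤
      ∑ a ∈ M.filter (fun a => ¬ Disjoint a e), (a ∩ e).card := by
    rw [Finset.card_eq_sum_ones]
    apply Finset.sum_le_sum
    intro a ha
    rw [Finset.mem_filter, Finset.not_disjoint_iff_nonempty_inter] at ha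
    exact Finset.card_pos.2 ha.2
  refine h1.trans ?_
  rw [← Finset.card_biUnion]
  · apply Finset.card_le_card
    intro x hx
    rw [Finset.mem_biUnion] at hx
    obtain ⟨a, ha, hxa⟩ := hx
    rw [Finset.mem_inter] at hxa
    exact Finset.mem_inter.2 ⟨hxa.2, subset_un (Finset.mem_filter.1 ha).1 hxa.1⟩
  · intro a ha b hb hab
    exact (hM a (Finset.mem_filter.1 ha).1 b (Finset.mem_filter.1 hb).1 hab).mono
      Finset.inter_subset_left Finset.inter_subset_left

/-- Counting edges that meet few classes outside of a given set of classes. -/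
theorem Hyp.few_classes {k s : ℕ} {F M J : Finset (Finset V)} (h : Hyp k s F M) (hJ : J ⊆ M)
    {t : ℕ} (ht : t ≤ s) :
    (F.filter (fun e => ((M.filter (fun a => ¬ Disjoint a e)) \ J).card ≤ t)).card ≤
      s ^ t * ((t + J.card) * k) ^ k := by
  have hsub : F.filter (fun e => ((M.filter (fun a => ¬ Disjoint a e)) \ J).card ≤ t) ⊆
      (M.powersetCard t).biUnion (fun I => loc F M (I ∪ J)) := by
    intro e he
    rw [Finset.mem_filter] at he
    obtain ⟨I, hI1, hI2, hI3⟩ := Finset.exists_subsuperset_card_eq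
      (s := (M.filter (fun a => ¬ Disjoint a e)) \ J) (t := M)
      (Finset.sdiff_subset.trans (Finset.filter_subset _ _)) he.2 (by rw [h.card]; exact ht)
    rw [Finset.mem_biUnion]
    refine ⟨I, Finset.mem_powersetCard.2 ⟨hI2, hI3⟩, ?_⟩
    rw [mem_loc]
    refine ⟨he.1, ?_⟩
    intro x hx
    rw [Finset.mem_inter] at hx
    obtain ⟨a, ha, hxa⟩ := mem_un.1 hx.2
    refine mem_un.2 ⟨a, ?_, hxa⟩
    rw [mem_union]
    by_cases haJ : a ∈ J
    · exact Or.inr haJ
    · left
      apply hI1
      rw [Finset.mem_sdiff, Finset.mem_filter, Finset.not_disjoint_iff]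
      exact ⟨⟨ha, x, hxa, hx.1⟩, haJ⟩
  calc (F.filter (fun e => ((M.filter (fun a => ¬ Disjoint a e)) \ J).card ≤ t)).card
      ≤ ((M.powersetCard t).biUnion (fun I => loc F M (I ∪ J))).card :=
        Finset.card_le_card hsub
    _ ≤ ∑ I ∈ M.powersetCard t, (loc F M (I ∪ J)).card := Finset.card_biUnion_le
    _ ≤ ∑ I ∈ M.powersetCard t, ((t + J.card) * k) ^ k := by
        apply Finset.sum_le_sum
        intro I hI
        rw [Finset.mem_powersetCard] at hI
        refine (h.loc_count (Finset.union_subset hI.1 hJ)).trans ?_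
        apply Nat.pow_le_pow_left
        apply Nat.mul_le_mul_right
        refine (Finset.card_union_le _ _).trans ?_
        rw [hI.2]
    _ = (M.powersetCard t).card * ((t + J.card) * k) ^ k := by
        rw [Finset.sum_const, smul_eq_mul]
    _ ≤ s ^ t * ((t + J.card) * k) ^ k := by
        apply Nat.mul_le_mul_right
        rw [Finset.card_powersetCard, h.card]
        exact Nat.choose_le_pow _ _

/-- The constant `(k * k) ^ k`. -/
def KK (k : ℕ) : ℕ := (k * k) ^ k

/-- Edges not inside the support of the matching have few points in it. -/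
theorem Hyp.inter_lt {k s : ℕ} {F M : Finset (Finset V)} (h : Hyp k s F M) {e : Finset V}
    (he : e ∈ F) (hne : ¬ e ⊆ un M) : (e ∩ un M).card < k := by
  rw [← h.unif e he]
  apply Finset.card_lt_card
  rw [Finset.ssubset_iff_subset_ne]
  exact ⟨Finset.inter_subset_left, fun heq => hne (Finset.inter_eq_left.1 heq)⟩

theorem Hyp.count_small {k s : ℕ} {F M : Finset (Finset V)} (h : Hyp k s F M) {t : ℕ}
    (ht : t ≤ s) (htk : t ≤ k) :
    (F.filter (fun e => (e ∩ un M).card ≤ t)).card ≤ s ^ t * KK k := by
  have h1 := h.few_classes (J := ∅) (Finset.empty_subset _) ht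
  refine le_trans (Finset.card_le_card ?_) (h1.trans ?_)
  · intro e he
    rw [Finset.mem_filter] at he ⊢
    refine ⟨he.1, ?_⟩
    rw [Finset.sdiff_empty]
    exact (touch_card h.mat e).trans he.2
  · apply Nat.mul_le_mul_left
    apply Nat.pow_le_pow_left
    apply Nat.mul_le_mul_right
    simpa using htk

theorem Hyp.count_out {k s : ℕ} {F M : Finset (Finset V)} (h : Hyp k s F M) (hs : k - 1 ≤ s) :
    (F.filter (fun e => ¬ e ⊆ un M)).card ≤ s ^ (k - 1) * KK k := by
  refine le_trans (Finset.card_le_card ?_) (h.count_small hs (by omega))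
  intro e he
  rw [Finset.mem_filter] at he ⊢
  have := h.inter_lt he.1 he.2
  exact ⟨he.1, by omega⟩

theorem Hyp.count_through {k s : ℕ} {F M : Finset (Finset V)} (h : Hyp k s F M) (hk : 2 ≤ k)
    (hs : k - 2 ≤ s) {x : V} (hx : x ∈ un M) :
    (F.filter (fun e => ¬ e ⊆ un M ∧ x ∈ e)).card ≤ s ^ (k - 2) * KK k := by
  obtain ⟨c, hc, hxc⟩ := mem_un.1 hx
  have h1 := h.few_classes (J := {c}) (by simpa using hc) hs
  refine le_trans (Finset.card_le_card ?_) (h1.trans ?_)
  · intro e he
    rw [Finset.mem_filter] at he ⊢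
    refine ⟨he.1, ?_⟩
    have h2 := (touch_card h.mat e).trans_lt (h.inter_lt he.1 he.2.1)
    have h3 : c ∈ M.filter (fun a => ¬ Disjoint a e) := by
      rw [Finset.mem_filter, Finset.not_disjoint_iff]
      exact ⟨hc, x, hxc, he.2.2⟩
    rw [Finset.sdiff_singleton_eq_erase, Finset.card_erase_of_mem h3]
    omega
  · apply Nat.mul_le_mul_left
    apply Nat.pow_le_pow_left
    apply Nat.mul_le_mul_right
    simp
    omega

end Pool.Agent.R407.Cov
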