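import Pool.Agent.R407.Cov.Local

/-!
The extremal theorem for families with covering number `s * k`.
-/

namespace Pool.Agent.R407.Cov

open Finset

variable {V : Type*} [DecidableEq V]

/-- The bound on the number of bad points. -/
def BB (k : ℕ) : ℕ := DD k * k * KK k

/-- The missing sets inside the support of the matching. -/
def miss (F : Finset (Finset V)) (k : ℕ) (X : Finset V) : Finset (Finset V) :=
  (X.powersetCard k).filter (fun B => B ∉ F)

theorem card_inside_add_miss {F : Finset (Finset V)} {k : ℕ} (hF : ∀ e ∈ F, e.card = k)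
    (X : Finset V) :
    (F.filter (fun e => e ⊆ X)).card + (miss F k X).card = X.card.choose k := by
  have h1 : F.filter (fun e => e ⊆ X) = (X.powersetCard k).filter (fun B => B ∈ F) := by
    ext e
    rw [Finset.mem_filter, Finset.mem_filter, Finset.mem_powersetCard]
    constructor
    · rintro ⟨h1, h2⟩
      exact ⟨⟨h2, hF e h1⟩, h1⟩
    · rintro ⟨⟨h1, h2⟩, h3⟩
      exact ⟨h3, h1⟩
  rw [h1, miss, ← Finset.card_powersetCard]
  exact Finset.card_filter_add_card_filter_not _

theorem md_le_miss (F : Finset (Finset V)) (k : ℕ) (X : Finset V) (x : V) :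
    md F k X x ≤ (miss F k X).card := by
  unfold md miss
  apply Finset.card_le_card
  intro B hB
  rw [Finset.mem_filter] at hB ⊢
  exact ⟨hB.1, hB.2.1⟩

theorem sum_md_le (F : Finset (Finset V)) (k : ℕ) (X Y : Finset V) :
    ∑ x ∈ Y, md F k X x ≤ (miss F k X).card * k := by
  have h1 : ∀ x, md F k X x = ((miss F k X).filter (fun B => x ∈ B)).card := by
    intro x
    unfold md miss
    rw [Finset.filter_filter]
  simp only [h1]
  have h2 := Finset.sum_card_bipartiteAbove_eq_sum_card_bipartiteBelow (s := Y)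
    (t := miss F k X) (fun x B => x ∈ B)
  unfold Finset.bipartiteAbove Finset.bipartiteBelow at h2
  rw [h2]
  calc ∑ B ∈ miss F k X, (Y.filter (fun x => x ∈ B)).card
      ≤ ∑ B ∈ miss F k X, k := by
        apply Finset.sum_le_sum
        intro B hB
        have h3 := (Finset.mem_powersetCard.1 (Finset.mem_filter.1 hB).1).2
        rw [← h3]
        apply Finset.card_le_card
        intro x hx
        exact (Finset.mem_filter.1 hx).2
    _ = (miss F k X).card * k := by rw [Finset.sum_const, smul_eq_mul]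

/-- The points of the support that lie in many missing sets. -/
def bad (k s : ℕ) (F M : Finset (Finset V)) : Finset V :=
  (un M).filter (fun v => s ^ (k - 1) < DD k * md F k (un M) v)

theorem Hyp.miss_le {k s : ℕ} {F M : Finset (Finset V)} (h : Hyp k s F M) (hs : k - 1 ≤ s)
    (hF : (s * k + k - 1).choose k ≤ F.card) :
    (miss F k (un M)).card ≤ s ^ (k - 1) * KK k := by
  have h1 := card_inside_add_miss h.unif (un M)
  have h2 := h.count_out hs
  have h3 : (F.filter (fun e => e ⊆ un M)).card + (F.filter (fun e => ¬ e ⊆ un M)).card =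
      F.card := Finset.card_filter_add_card_filter_not _
  have h4 : (s * k).choose k ≤ (s * k + k - 1).choose k :=
    Nat.choose_le_choose k (by have := h.kpos; omega)
  rw [h.un_card] at h1
  omega

theorem Hyp.bad_card {k s : ℕ} {F M : Finset (Finset V)} (h : Hyp k s F M) (hs : k - 1 ≤ s)
    (hs0 : 0 < s) (hF : (s * k + k - 1).choose k ≤ F.card) : (bad k s F M).card ≤ BB k := by
  have h1 := h.miss_le hs hF
  have h2 : (bad k s F M).card * s ^ (k - 1) ≤ ∑ v ∈ bad k s F M, DD k * md F k (un M) v := by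
    rw [← smul_eq_mul, ← Finset.sum_const]
    apply Finset.sum_le_sum
    intro v hv
    exact (Finset.mem_filter.1 hv).2.le
  have h3 : ∑ v ∈ bad k s F M, DD k * md F k (un M) v ≤ BB k * s ^ (k - 1) := by
    rw [← Finset.mul_sum]
    calc DD k * ∑ v ∈ bad k s F M, md F k (un M) v
        ≤ DD k * ((s ^ (k - 1) * KK k) * k) :=
          Nat.mul_le_mul_left _ ((sum_md_le _ _ _ _).trans (Nat.mul_le_mul_right _ h1))
      _ = BB k * s ^ (k - 1) := by unfold BB; ring
  have h4 : 0 < s ^ (k - 1) := by positivity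
  exact Nat.le_of_mul_le_mul_right (h2.trans h3) h4

/-- The good classes. -/
def good (k s : ℕ) (F M : Finset (Finset V)) : Finset (Finset V) :=
  M.filter (fun a => Disjoint a (bad k s F M))

theorem Hyp.good_card {k s : ℕ} {F M : Finset (Finset V)} (h : Hyp k s F M) (hs : k - 1 ≤ s)
    (hs0 : 0 < s) (hF : (s * k + k - 1).choose k ≤ F.card) :
    s ≤ (good k s F M).card + BB k ∧ (M \ good k s F M).card ≤ BB k := by
  have h1 : M \ good k s F M = M.filter (fun a => ¬ Disjoint a (bad k s F M)) := by
    unfold good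
    ext a
    simp only [Finset.mem_sdiff, Finset.mem_filter]
    tauto
  have h2 := touch_card h.mat (bad k s F M)
  have h3 : (bad k s F M ∩ un M).card ≤ BB k :=
    (Finset.card_le_card Finset.inter_subset_left).trans (h.bad_card hs hs0 hF)
  have h4 : (M \ good k s F M).card ≤ BB k := by
    rw [h1]
    exact h2.trans h3
  refine ⟨?_, h4⟩
  have h5 : (M \ good k s F M).card = M.card - (good k s F M).card :=
    Finset.card_sdiff_of_subset (Finset.filter_subset _ _)
  rw [h5, h.card] at h4
  omega

/-- The edges with exactly one point outside of the support and all others in good classes. -/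
def GG (k s : ℕ) (F M : Finset (Finset V)) : Finset (Finset V) :=
  F.filter (fun e => (e ∩ un M).card = k - 1 ∧ e ∩ un M ⊆ un (good k s F M))

theorem inter_un_card_le {N : Finset (Finset V)} {U : Finset V} {c : ℕ}
    (hN : ∀ a ∈ N, (a ∩ U).card ≤ c) : (un N ∩ U).card ≤ N.card * c := by
  have h1 : un N ∩ U ⊆ N.biUnion (fun a => a ∩ U) := by
    intro x hx
    rw [Finset.mem_inter] at hx
    obtain ⟨a, ha, hxa⟩ := mem_un.1 hx.1
    rw [Finset.mem_biUnion]
    exact ⟨a, ha, Finset.mem_inter.2 ⟨hxa, hx.2⟩⟩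
  exact (Finset.card_le_card h1).trans (Finset.card_biUnion_le_card_mul _ _ _ hN)

/-- The special edges have no `k` disjoint members. -/
theorem Hyp.GG_matching {k s : ℕ} {F M : Finset (Finset V)} (h : Hyp k s F M) (hk : 2 ≤ k)
    (hs : 4 * k * k + 2 * BB k + 2 * k ≤ s)
    (hF : (s * k + k - 1).choose k ≤ F.card) {N : Finset (Finset V)} (hN : N ⊆ GG k s F M)
    (hNm : Match N) : N.card ≤ k - 1 := by
  by_contra hcon
  have hcon' : k ≤ N.card := by omega
  obtain ⟨N₁, hN₁, hN₁c⟩ := Finset.exists_subset_card_eq hcon'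
  have hs1 : k - 1 ≤ s := by omega
  have hs0 : 0 < s := by omega
  obtain ⟨hg1, hg2⟩ := h.good_card hs1 hs0 hF
  set I := good k s F M with hI
  have hIM : I ⊆ M := Finset.filter_subset _ _
  have hIc : I.card ≤ s := by
    rw [← h.card]
    exact Finset.card_le_card hIM
  have hN₁G : ∀ a ∈ N₁, a ∈ F ∧ (a ∩ un M).card = k - 1 ∧ a ∩ un M ⊆ un I := fun a ha =>
    Finset.mem_filter.1 (hN (hN₁ ha))
  set S := un N₁ ∩ un M with hS
  have hSc : S.card ≤ k * (k - 1) := by
    have := inter_un_card_le (N := N₁) (U := un M) (c := k - 1)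
      (fun a ha => (hN₁G a ha).2.1.le)
    rw [hN₁c] at this
    exact this
  set X := un I \ S with hX
  have hunI : (un I).card = I.card * k :=
    Cov.un_card (h.mat.mono hIM) (fun a ha => h.unif a (h.sub (hIM ha)))
  have hXc : I.card * k - k * (k - 1) ≤ X.card := by
    have h1 := Finset.le_card_sdiff S (un I)
    rw [hunI, ← hX] at h1
    omega
  have hXU : X ⊆ un M := Finset.sdiff_subset.trans (un_mono hIM)
  obtain ⟨q, hq⟩ : ∃ q, I.card = q + (k - 1) := ⟨I.card - (k - 1), by omega⟩
  have hXq : k * q ≤ X.card := by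
    refine le_trans ?_ hXc
    rw [hq]
    have : (q + (k - 1)) * k = k * q + k * (k - 1) := by ring
    omega
  have hsX : s ≤ X.card := by
    refine le_trans ?_ hXq
    have h1 : 2 * q ≤ k * q := Nat.mul_le_mul_right _ hk
    omega
  have h4k : 4 * k * k ≤ X.card := by omega
  have hXdeg : ∀ x ∈ X, DD k * md F k X x ≤ X.card ^ (k - 1) := by
    intro x hx
    have hxI : x ∈ un I := (Finset.mem_sdiff.1 hx).1
    obtain ⟨a, ha, hxa⟩ := mem_un.1 hxI
    have ha' := (Finset.mem_filter.1 ha).2
    have hxb : x ∉ bad k s F M := Finset.disjoint_left.1 ha' hxa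
    have h1 : DD k * md F k (un M) x ≤ s ^ (k - 1) := by
      by_contra hlt
      push Not at hlt
      exact hxb (Finset.mem_filter.2 ⟨un_mono hIM hxI, hlt⟩)
    calc DD k * md F k X x ≤ DD k * md F k (un M) x :=
          Nat.mul_le_mul_left _ (md_mono hXU x)
      _ ≤ s ^ (k - 1) := h1
      _ ≤ X.card ^ (k - 1) := Nat.pow_le_pow_left hsX _
  obtain ⟨N', hN'F, hN'm, hN'c, hN'X⟩ := ml h.kpos h.unif h4k hXdeg hXq
  have hdisj : Disjoint (un N₁) (un N') := by
    rw [Finset.disjoint_left]
    intro x hx hx'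
    obtain ⟨a, ha, hxa⟩ := mem_un.1 hx'
    have h1 := Finset.mem_sdiff.1 (hN'X a ha hxa)
    exact h1.2 (Finset.mem_inter.2 ⟨hx, un_mono hIM h1.1⟩)
  have hun : Match (N₁ ∪ N') := Match.union (hNm.mono hN₁) hN'm hdisj
  have hloc : N₁ ∪ N' ⊆ loc F M I := by
    intro a ha
    rw [mem_loc]
    rcases mem_union.1 ha with ha | ha
    · exact ⟨(hN₁G a ha).1, (hN₁G a ha).2.2⟩
    · refine ⟨hN'F ha, ?_⟩
      intro x hx
      exact (Finset.mem_sdiff.1 (hN'X a ha (Finset.mem_inter.1 hx).1)).1
  have h2 := h.loc_matching hIM hloc hun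
  rw [Finset.card_union_of_disjoint (disjoint_of_un
    (fun a ha => h.nonempty (hN₁G a ha).1) hdisj), hN₁c] at h2
  omega

/-- The constant bounding the number of edges outside of the core. -/
def K2 (k : ℕ) : ℕ := KK k * (1 + (BB k * k + k * k))

/-- Almost all edges lie in a small vertex set. -/
theorem Hyp.core {k s : ℕ} {F M : Finset (Finset V)} (h : Hyp k s F M) (hk : 2 ≤ k)
    (hs : 4 * k * k + 2 * BB k + 2 * k ≤ s)
    (hF : (s * k + k - 1).choose k ≤ F.card) :
    ∃ V₀ : Finset V, un M ⊆ V₀ ∧ V₀.card ≤ s * k + (k - 1) ∧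
      (F.filter (fun e => ¬ e ⊆ V₀)).card ≤ s ^ (k - 2) * K2 k := by
  have hs1 : k - 1 ≤ s := by omega
  have hs0 : 0 < s := by omega
  obtain ⟨hg1, hg2⟩ := h.good_card hs1 hs0 hF
  obtain ⟨N, hN, hNm, hmax⟩ := exists_max (GG k s F M)
  have hNc : N.card ≤ k - 1 := h.GG_matching hk hs hF hN hNm
  have hGF : ∀ a ∈ GG k s F M, a ∈ F ∧ (a ∩ un M).card = k - 1 ∧
      a ∩ un M ⊆ un (good k s F M) := fun a ha => Finset.mem_filter.1 ha
  have hout : ∀ a ∈ F, (a ∩ un M).card = k - 1 → (a \ un M).card = 1 := by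
    intro a ha hac
    have h1 := Finset.card_sdiff_add_card_inter a (un M)
    rw [h.unif a ha, hac] at h1
    omega
  refine ⟨un M ∪ (un N \ un M), Finset.subset_union_left, ?_, ?_⟩
  · refine (Finset.card_union_le _ _).trans ?_
    rw [h.un_card]
    apply Nat.add_le_add_left
    have h1 : un N \ un M ⊆ N.biUnion (fun a => a \ un M) := by
      intro x hx
      rw [Finset.mem_sdiff] at hx
      obtain ⟨a, ha, hxa⟩ := mem_un.1 hx.1
      rw [Finset.mem_biUnion]
      exact ⟨a, ha, Finset.mem_sdiff.2 ⟨hxa, hx.2⟩⟩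
    have h2 := (Finset.card_le_card h1).trans (Finset.card_biUnion_le_card_mul _ _ 1
      (fun a ha => (hout a (hGF a (hN ha)).1 (hGF a (hN ha)).2.1).le))
    omega
  · set Z := un (M \ good k s F M) ∪ (un N ∩ un M) with hZ
    have hZU : Z ⊆ un M :=
      Finset.union_subset (un_mono Finset.sdiff_subset) Finset.inter_subset_right
    have hZc : Z.card ≤ BB k * k + k * k := by
      refine (Finset.card_union_le _ _).trans (Nat.add_le_add ?_ ?_)
      · refine (un_card_le (k := k) (fun a ha =>
          (h.unif a (h.sub (Finset.mem_sdiff.1 ha).1)).le)).trans ?_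
        exact Nat.mul_le_mul_right _ hg2
      · refine (inter_un_card_le (c := k) (fun a ha => ?_)).trans ?_
        · rw [(hGF a (hN ha)).2.1]; omega
        · exact Nat.mul_le_mul_right _ (by omega)
    have hsub : F.filter (fun e => ¬ e ⊆ un M ∪ (un N \ un M)) ⊆
        F.filter (fun e => (e ∩ un M).card ≤ k - 2) ∪
          Z.biUnion (fun x => F.filter (fun e => ¬ e ⊆ un M ∧ x ∈ e)) := by
      intro e he
      rw [Finset.mem_filter] at he
      obtain ⟨heF, heV⟩ := he
      have heU : ¬ e ⊆ un M := fun h' => heV (h'.trans Finset.subset_union_left)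
      have hlt := h.inter_lt heF heU
      rw [mem_union]
      by_cases hsmall : (e ∩ un M).card ≤ k - 2
      · exact Or.inl (Finset.mem_filter.2 ⟨heF, hsmall⟩)
      right
      have hcard : (e ∩ un M).card = k - 1 := by omega
      have hmem : ∃ x ∈ Z, x ∈ e := by
        by_cases hgood : e ∩ un M ⊆ un (good k s F M)
        · have heG : e ∈ GG k s F M := Finset.mem_filter.2 ⟨heF, hcard, hgood⟩
          have hmeet := max_meets hN hNm hmax heG (h.nonempty heF)
          rw [Finset.not_disjoint_iff] at hmeet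
          obtain ⟨x, hxe, hxN⟩ := hmeet
          by_cases hxU : x ∈ un M
          · exact ⟨x, mem_union_right _ (Finset.mem_inter.2 ⟨hxN, hxU⟩), hxe⟩
          · exfalso
            apply heV
            have h1 := hout e heF hcard
            rw [Finset.card_eq_one] at h1
            obtain ⟨w, hw⟩ := h1
            intro y hy
            by_cases hyU : y ∈ un M
            · exact mem_union_left _ hyU
            · apply mem_union_right
              have h2 : y ∈ e \ un M := Finset.mem_sdiff.2 ⟨hy, hyU⟩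
              have h3 : x ∈ e \ un M := Finset.mem_sdiff.2 ⟨hxe, hxU⟩
              rw [hw, Finset.mem_singleton] at h2 h3
              rw [h2, ← h3]
              exact Finset.mem_sdiff.2 ⟨hxN, hxU⟩
        · rw [Finset.not_subset] at hgood
          obtain ⟨x, hx, hxg⟩ := hgood
          rw [Finset.mem_inter] at hx
          obtain ⟨a, ha, hxa⟩ := mem_un.1 hx.2
          refine ⟨x, mem_union_left _ (mem_un.2 ⟨a, Finset.mem_sdiff.2 ⟨ha, ?_⟩, hxa⟩), hx.1⟩
          exact fun hag => hxg (mem_un.2 ⟨a, hag, hxa⟩)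
      obtain ⟨x, hxZ, hxe⟩ := hmem
      rw [Finset.mem_biUnion]
      exact ⟨x, hxZ, Finset.mem_filter.2 ⟨heF, heU, hxe⟩⟩
    calc (F.filter (fun e => ¬ e ⊆ un M ∪ (un N \ un M))).card
        ≤ _ := Finset.card_le_card hsub
      _ ≤ (F.filter (fun e => (e ∩ un M).card ≤ k - 2)).card +
          (Z.biUnion (fun x => F.filter (fun e => ¬ e ⊆ un M ∧ x ∈ e))).card :=
          Finset.card_union_le _ _
      _ ≤ s ^ (k - 2) * KK k + Z.card * (s ^ (k - 2) * KK k) := by
          apply Nat.add_le_add (h.count_small (by omega) (by omega))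
          apply Finset.card_biUnion_le_card_mul
          intro x hx
          exact h.count_through hk (by omega) (hZU hx)
      _ ≤ s ^ (k - 2) * KK k + (BB k * k + k * k) * (s ^ (k - 2) * KK k) :=
          Nat.add_le_add_left (Nat.mul_le_mul_right _ hZc) _
      _ = s ^ (k - 2) * K2 k := by unfold K2; ring

/-- The threshold. -/
def s0 (k : ℕ) : ℕ := 4 * k * k + 2 * BB k + 2 * k + DD k * K2 k

theorem Hyp.main {k s : ℕ} {F M : Finset (Finset V)} (h : Hyp k s F M) (hk : 2 ≤ k)
    (hs : s0 k < s) (hF : (s * k + k - 1).choose k ≤ F.card) :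
    ∃ V₀ : Finset V, V₀.card = s * k + k - 1 ∧ F = V₀.powersetCard k := by
  have hs' : 4 * k * k + 2 * BB k + 2 * k ≤ s := by unfold s0 at hs; omega
  have hsK : DD k * K2 k < s := by unfold s0 at hs; omega
  obtain ⟨V₀, hMV, hVc, hout⟩ := h.core hk hs' hF
  have hsplit : (F.filter (fun e => e ⊆ V₀)).card + (F.filter (fun e => ¬ e ⊆ V₀)).card =
      F.card := Finset.card_filter_add_card_filter_not _
  have hmiss := card_inside_add_miss h.unif V₀
  obtain ⟨p, rfl⟩ : ∃ p, k = p + 2 := ⟨k - 2, by omega⟩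
  have hspos : 0 < s := by omega
  have hsp : 0 < s ^ p := by positivity
  simp only [Nat.add_sub_cancel] at hout
  have hDDpos : 0 < DD (p + 2) := by unfold DD; omega
  by_cases hsmall : V₀.card < s * (p + 2) + (p + 1)
  · -- the core is too small
    exfalso
    have h1 : V₀.card.choose (p + 2) ≤ (s * (p + 2) + p).choose (p + 2) :=
      Nat.choose_le_choose _ (by omega)
    have h2 : (s * (p + 2) + (p + 2) - 1).choose (p + 2) =
        (s * (p + 2) + p).choose (p + 1) + (s * (p + 2) + p).choose (p + 2) := by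
      have : s * (p + 2) + (p + 2) - 1 = (s * (p + 2) + p) + 1 := by omega
      rw [this, Nat.choose_succ_succ]
    have h3 : s ^ (p + 1) ≤ (p + 1).factorial * (s * (p + 2) + p).choose (p + 1) := by
      rw [← Nat.descFactorial_eq_factorial_mul_choose]
      refine le_trans ?_ (Nat.pow_sub_le_descFactorial _ _)
      apply Nat.pow_le_pow_left
      have : s ≤ s * (p + 2) := Nat.le_mul_of_pos_right _ (by omega)
      omega
    have h4 : (s * (p + 2) + p).choose (p + 1) ≤ s ^ p * K2 (p + 2) := by omega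
    have h5 : (p + 1).factorial ≤ DD (p + 2) := by
      unfold DD
      have h6 : (p + 1).factorial ≤ (p + 2).factorial := Nat.factorial_le (by omega)
      have h7 : (p + 2).factorial ≤ (4 * (p + 2)) ^ (p + 2) * (p + 2).factorial :=
        Nat.le_mul_of_pos_left _ (by positivity)
      omega
    have h8 : s ^ (p + 1) ≤ (DD (p + 2) * K2 (p + 2)) * s ^ p := by
      calc s ^ (p + 1) ≤ (p + 1).factorial * (s * (p + 2) + p).choose (p + 1) := h3
        _ ≤ DD (p + 2) * (s ^ p * K2 (p + 2)) := Nat.mul_le_mul h5 h4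
        _ = (DD (p + 2) * K2 (p + 2)) * s ^ p := by ring
    rw [pow_succ, mul_comm (s ^ p) s] at h8
    have h9 := Nat.le_of_mul_le_mul_right h8 hsp
    omega
  have hVc' : V₀.card = s * (p + 2) + (p + 2) - 1 := by omega
  by_cases hex : ∃ e ∈ F, ¬ e ⊆ V₀
  · exfalso
    obtain ⟨e₀, he₀, he₀V⟩ := hex
    have hA : (e₀ ∩ V₀).card < p + 2 := by
      rw [← h.unif e₀ he₀]
      apply Finset.card_lt_card
      rw [Finset.ssubset_iff_subset_ne]
      exact ⟨Finset.inter_subset_left, fun heq => he₀V (Finset.inter_eq_left.1 heq)⟩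
    have hXc : s * (p + 2) ≤ (V₀ \ e₀).card := by
      have h1 := Finset.card_sdiff_add_card_inter V₀ e₀
      rw [Finset.inter_comm] at h1
      omega
    have hsX : s ≤ (V₀ \ e₀).card := by
      have : s ≤ s * (p + 2) := Nat.le_mul_of_pos_right _ (by omega)
      omega
    have hnot : ¬ ∀ x ∈ V₀ \ e₀, DD (p + 2) * md F (p + 2) (V₀ \ e₀) x ≤
        (V₀ \ e₀).card ^ (p + 2 - 1) := by
      intro hdeg
      obtain ⟨N, hNF, hNm, hNc, hNX⟩ := ml h.kpos h.unif (X := V₀ \ e₀) (by omega) hdeg
        (m := s) (by rw [mul_comm]; exact hXc)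
      have hdis : Disjoint (un N) e₀ := by
        rw [Finset.disjoint_left]
        intro x hx hx'
        obtain ⟨a, ha, hxa⟩ := mem_un.1 hx
        exact (Finset.mem_sdiff.1 (hNX a ha hxa)).2 hx'
      have he₀N : e₀ ∉ N := by
        intro h'
        obtain ⟨x, hx⟩ := h.nonempty he₀
        exact Finset.disjoint_left.1 hdis (subset_un h' hx) hx
      have h1 := h.max (insert e₀ N) (Finset.insert_subset he₀ hNF) (by
        intro a ha b hb hab
        rcases mem_insert.1 ha with h1 | h1
        · rcases mem_insert.1 hb with h2 | h2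
          · exact absurd (h1.trans h2.symm) hab
          · rw [h1]
            exact (hdis.mono_left (subset_un h2)).symm
        · rcases mem_insert.1 hb with h2 | h2
          · rw [h2]
            exact hdis.mono_left (subset_un h1)
          · exact hNm a h1 b h2 hab)
      rw [Finset.card_insert_of_notMem he₀N] at h1
      omega
    push Not at hnot
    obtain ⟨x, hx, hxd⟩ := hnot
    have h1 : md F (p + 2) (V₀ \ e₀) x ≤ (miss F (p + 2) V₀).card :=
      (md_mono Finset.sdiff_subset x).trans (md_le_miss _ _ _ _)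
    have h2 : (DD (p + 2) * K2 (p + 2)) * s ^ p < DD (p + 2) * (miss F (p + 2) V₀).card := by
      calc (DD (p + 2) * K2 (p + 2)) * s ^ p ≤ s * s ^ p :=
            Nat.mul_le_mul_right _ hsK.le
        _ = s ^ (p + 1) := by ring
        _ ≤ (V₀ \ e₀).card ^ (p + 1) := Nat.pow_le_pow_left hsX _
        _ < DD (p + 2) * md F (p + 2) (V₀ \ e₀) x := hxd
        _ ≤ DD (p + 2) * (miss F (p + 2) V₀).card := Nat.mul_le_mul_left _ h1
    have h3 : s ^ p * K2 (p + 2) < (miss F (p + 2) V₀).card := by
      have h4 : DD (p + 2) * (s ^ p * K2 (p + 2)) < DD (p + 2) * (miss F (p + 2) V₀).card := by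
        calc DD (p + 2) * (s ^ p * K2 (p + 2)) = (DD (p + 2) * K2 (p + 2)) * s ^ p := by ring
          _ < _ := h2
      exact Nat.lt_of_mul_lt_mul_left h4
    rw [hVc'] at hmiss
    omega
  · push Not at hex
    refine ⟨V₀, hVc', ?_⟩
    apply Finset.eq_of_subset_of_card_le
    · intro e he
      exact Finset.mem_powersetCard.2 ⟨hex e he, h.unif e he⟩
    · rw [Finset.card_powersetCard, hVc']
      exact hF

end Pool.Agent.R407.Cov
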